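import Mathlib
import Pool.Agent.Lib.MP_cf7953_an.Defs
import Pool.Agent.Lib.MP_cf7953_an.Limit

/-!
# Numerical radius of fractional powers of accretive matrices (problem MP_cf7953_an, Q1)

We prove `ω(A)^t ≤ ω(A^t)` for every accretive complex `n × n` matrix `A` and every `0 < t < 1`.

Outline of the proof (all in `Pool/Agent/Lib/MP_cf7953_an/`).

1. Let `A` be diagonalisable and accretive with `ω(A) = 1`, and let `x` be a unit vector with
   `⟨Ax, x⟩ = w = e^{iθ}`. Put `N = w⁻¹ A`. The first order condition at a maximiser and an exact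
   identity reduce the infinitesimal inequality `Re (w⁻¹ ⟨A log A x, x⟩) ≤ 0` to `Re G(N) ≥ 0`,
   where `G(d) = (d log d + 1 - d) / (1 - d)^2`.
2. `W(N)` lies in a half disc, on the circular part of which `Re G = 1/2`. A Schwarz type integral
   formula writes `G(N) - 1/2` as an integral of resolvents of `N` along the diameter, and two
   elementary resolvent inequalities with the scalar bound `q(x) ≤ (π/4)(1 - x^2)` give the claim.
3. The infinitesimal inequality is integrated along `s ↦ A^s`.
4. General `A`: diagonalisable matrices are dense, and both sides are continuous.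
-/

namespace Pool.Agent.Results.MP_cf7953_an.NumRadiusPow

open Pool.Agent.Lib.MP_cf7953_an

/-- For every `n ≥ 1`, every accretive complex `n × n` matrix `A` and every `0 < t < 1` the
numerical radius satisfies `ω(A)^t ≤ ω(A^t)`. -/
theorem result : ∀ (n : ℕ), 1 ≤ n → ∀ (A : Matrix (Fin n) (Fin n) ℂ), IsAccretive A →
    ∀ t : ℝ, 0 < t → t < 1 → numRadius A ^ t ≤ numRadius (fracPow A t) :=
  fun _ hn _ hA _ ht0 ht1 => numRadius_pow_le hn hA ht0 ht1

end Pool.Agent.Results.MP_cf7953_an.NumRadiusPow
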